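import Pool.Agent.H719.EK.Compl

/-!
# Two forbidden graphs: incompressible alone, compressible together

The edge editing problem with both `C4` and its complement `2 K2` forbidden is solvable in
polynomial time, so it has a polynomial kernel. The edge editing problems with only one of the two
graphs forbidden have no polynomial kernel unless `coNP ⊆ NP/poly`.
-/

namespace Pool.Agent.Results.MP_2df4ce_lc.PseudosplitEditing

open Pool.Agent.EK

theorem result :
    HasPolyKernel (FreeMod Kind.editing {C4, TwoK2}) ∧
    (¬ Pool.Agent.CK.CoNPSubsetNPPoly →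
      ¬ HasPolyKernel (FreeMod Kind.editing {C4}) ∧
      ¬ HasPolyKernel (FreeMod Kind.editing {TwoK2})) :=
  ⟨pair_kernel, fun h => ⟨fun h1 => h (C4_hard h1), fun h2 => h (C4_hard (kernel_compl h2))⟩⟩

end Pool.Agent.Results.MP_2df4ce_lc.PseudosplitEditing
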